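import Mathlib

/-!
# Hypersurfaces in `P ^ s × P ^ s`, grids and Cremona transformations (definitions)
-/

set_option autoImplicit false

namespace Pool.Agent.X329.Grid

open MvPolynomial

/-- The complex projective space of dimension `s`. -/
abbrev PP (s : ℕ) : Type := Projectivization ℂ (Fin (s + 1) → ℂ)

/-- The polynomials in two groups of variables `x_0, ..., x_s` (indices `Sum.inl i`) and
`y_0, ..., y_s` (indices `Sum.inr i`). -/
abbrev Poly (s : ℕ) : Type := MvPolynomial (Fin (s + 1) ⊕ Fin (s + 1)) ℂ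

/-- `F` is homogeneous of degree `a` in the `x_i` and homogeneous of degree `b` in the `y_i`: every
monomial of `F` has degree `a` in the `x_i` and degree `b` in the `y_i`. -/
def IsBihom {s : ℕ} (F : Poly s) (a b : ℕ) : Prop :=
  ∀ m ∈ F.support, ∑ i, m (Sum.inl i) = a ∧ ∑ i, m (Sum.inr i) = b

/-- The zero set in `P ^ s × P ^ s` of a polynomial that is homogeneous in the `x_i` and in
the `y_i`, evaluated at vectors which represent the two points (for such a polynomial the choice of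
the vectors does not matter). -/
def zeroLocus {s : ℕ} (F : Poly s) : Set (PP s × PP s) :=
  {p | eval (Sum.elim p.1.rep p.2.rep) F = 0}

/-- `U` is open in the Zariski topology of `P ^ s`: its complement is the set of the common zeros of
a set of homogeneous polynomials. -/
def IsZariskiOpen {s : ℕ} (U : Set (PP s)) : Prop :=
  ∃ I : Set (MvPolynomial (Fin (s + 1)) ℂ), (∀ f ∈ I, ∃ n, f.IsHomogeneous n) ∧
    U = {p | ∃ f ∈ I, eval p.rep f ≠ 0}

/-- `V` contains an `(r, t)`-grid: a product of a set of `r` points and a set of `t` points. -/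
def ContainsGrid {A B : Type} (r t : ℕ) (V : Set (A × B)) : Prop :=
  ∃ (S : Finset A) (T : Finset B), S.card = r ∧ T.card = t ∧ ∀ p ∈ S, ∀ q ∈ T, (p, q) ∈ V

/-- `V` is almost-`(r, t)`-grid-free: `V ∩ (X × Y)` contains no `(r, t)`-grid for some nonempty
Zariski open sets `X` and `Y` of `P ^ s`. -/
def AlmostGridFree {s : ℕ} (r t : ℕ) (V : Set (PP s × PP s)) : Prop :=
  ∃ X Y : Set (PP s), IsZariskiOpen X ∧ X.Nonempty ∧ IsZariskiOpen Y ∧ Y.Nonempty ∧
    ¬ ContainsGrid r t (V ∩ X ×ˢ Y)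

/-- `V` and `V'` are almost equal: `V ∩ (X × Y) = V' ∩ (X × Y)` for some nonempty
Zariski open sets `X` and `Y` of `P ^ s`. -/
def AlmostEqual {s : ℕ} (V V' : Set (PP s × PP s)) : Prop :=
  ∃ X Y : Set (PP s), IsZariskiOpen X ∧ X.Nonempty ∧ IsZariskiOpen Y ∧ Y.Nonempty ∧
    V ∩ X ×ˢ Y = V' ∩ X ×ˢ Y

/-- The polynomials `σ_0, ..., σ_s` are homogeneous of equal degree without common factor and define
a birational automorphism `(σ_0 : ... : σ_s)` of `P ^ s`: there are homogeneous polynomials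
`ρ_0, ..., ρ_s` of equal degree such that `ρ (σ (y)) = G (y) y` and `σ (ρ (y)) = G' (y) y` for
nonzero polynomials `G` and `G'`. -/
def IsCremona {s : ℕ} (σ : Fin (s + 1) → MvPolynomial (Fin (s + 1)) ℂ) : Prop :=
  (∃ m, ∀ i, (σ i).IsHomogeneous m) ∧ (∀ g, (∀ i, g ∣ σ i) → IsUnit g) ∧
  ∃ ρ : Fin (s + 1) → MvPolynomial (Fin (s + 1)) ℂ, (∃ l, ∀ i, (ρ i).IsHomogeneous l) ∧
    (∃ G, G ≠ 0 ∧ ∀ i, bind₁ σ (ρ i) = G * X i) ∧ ∃ G', G' ≠ 0 ∧ ∀ i, bind₁ ρ (σ i) = G' * X i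

/-- The polynomial `F ∘ (id × σ) = F (x_0, ..., x_s, σ_0 (y), ..., σ_s (y))`. -/
noncomputable def pull {s : ℕ} (σ : Fin (s + 1) → MvPolynomial (Fin (s + 1)) ℂ) (F : Poly s) :
    Poly s :=
  bind₁ (Sum.elim (fun i => X (Sum.inl i)) (fun i => rename Sum.inr (σ i))) F

/-- The polynomial
`x_0 y_0 ^ (2 k + 1) y_2 + x_1 y_0 ^ (2 k) y_1 y_2 + x_2 (y_0 ^ (2 k) y_2 ^ 2 + y_1 ^ (2 k + 2))`
of bidegree `(1, 2 k + 2)`. -/
noncomputable def dJ (k : ℕ) : Poly 2 :=
  X (Sum.inl 0) * (X (Sum.inr 0) ^ (2 * k + 1) * X (Sum.inr 2)) +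
    X (Sum.inl 1) * (X (Sum.inr 0) ^ (2 * k) * X (Sum.inr 1) * X (Sum.inr 2)) +
    X (Sum.inl 2) * (X (Sum.inr 0) ^ (2 * k) * X (Sum.inr 2) ^ 2 + X (Sum.inr 1) ^ (2 * k + 2))

end Pool.Agent.X329.Grid
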