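import Mathlib
import Pool.Agent.X329.Grid.Defs

set_option autoImplicit false

namespace Pool.Agent.X329.Grid

open MvPolynomial

section scaling

variable {s : ℕ} {F : Poly s} {a b : ℕ} {A : Type*} [CommRing A] [Algebra ℂ A]

theorem aeval_eq (x y : Fin (s + 1) → A) (F : Poly s) :
    aeval (Sum.elim x y) F = ∑ m ∈ F.support, algebraMap ℂ A (F.coeff m) *
      ((∏ i, x i ^ m (Sum.inl i)) * ∏ i, y i ^ m (Sum.inr i)) := by
  rw [aeval_def, eval₂_eq']
  refine Finset.sum_congr rfl fun m _ => ?_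
  rw [Fintype.prod_sum_type]
  rfl

theorem IsBihom.aeval_smul_left (hF : IsBihom F a b) (c : A) (x y : Fin (s + 1) → A) :
    aeval (Sum.elim (fun i => c * x i) y) F = c ^ a * aeval (Sum.elim x y) F := by
  rw [aeval_eq, aeval_eq, Finset.mul_sum]
  refine Finset.sum_congr rfl fun m hm => ?_
  have h := (hF m hm).1
  simp only [mul_pow, Finset.prod_mul_distrib, Finset.prod_pow_eq_pow_sum, h]
  ring

theorem IsBihom.aeval_smul_right (hF : IsBihom F a b) (c : A) (x y : Fin (s + 1) → A) :
    aeval (Sum.elim x (fun i => c * y i)) F = c ^ b * aeval (Sum.elim x y) F := by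
  rw [aeval_eq, aeval_eq, Finset.mul_sum]
  refine Finset.sum_congr rfl fun m hm => ?_
  have h := (hF m hm).2
  simp only [mul_pow, Finset.prod_mul_distrib, Finset.prod_pow_eq_pow_sum, h]
  ring

theorem hom_aeval_smul {n : ℕ} {f : MvPolynomial (Fin (s + 1)) ℂ} (hf : f.IsHomogeneous n) (c : A)
    (x : Fin (s + 1) → A) : aeval (fun i => c * x i) f = c ^ n * aeval x f := by
  rw [aeval_def, aeval_def, eval₂_eq', eval₂_eq', Finset.mul_sum]
  refine Finset.sum_congr rfl fun m hm => ?_
  have h : ∑ i, m i = n := by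
    have := hf (mem_support_iff.1 hm)
    rw [← this, Finsupp.weight_apply, Finsupp.sum_fintype]
    · simp
    · simp
  simp only [mul_pow, Finset.prod_mul_distrib, Finset.prod_pow_eq_pow_sum, h]
  ring

end scaling

theorem natDegree_aeval_le {s : ℕ} {F : Poly s} {a b : ℕ} (hF : IsBihom F a b)
    (B : Fin (s + 1) → ℂ) (z : Fin (s + 1) → Polynomial ℂ) (hz : ∀ i, (z i).natDegree ≤ 1) :
    (aeval (Sum.elim (fun i => Polynomial.C (B i)) z) F : Polynomial ℂ).natDegree ≤ b := by
  rw [aeval_eq]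
  refine Polynomial.natDegree_sum_le_of_forall_le _ _ fun m hm => ?_
  have h := (hF m hm).2
  have h1 : (algebraMap ℂ (Polynomial ℂ) (F.coeff m) : Polynomial ℂ) =
    Polynomial.C (F.coeff m) := rfl
  have h2 : (∏ i, Polynomial.C (B i) ^ m (Sum.inl i)) =
      Polynomial.C (∏ i, B i ^ m (Sum.inl i)) := by
    rw [map_prod]
    simp
  rw [h1, h2]
  refine (Polynomial.natDegree_C_mul_le _ _).trans ((Polynomial.natDegree_C_mul_le _ _).trans ?_)
  refine (Polynomial.natDegree_prod_le _ _).trans ?_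
  rw [← h]
  refine Finset.sum_le_sum fun i _ => ?_
  refine (Polynomial.natDegree_pow_le).trans ?_
  calc m (Sum.inr i) * (z i).natDegree ≤ m (Sum.inr i) * 1 := Nat.mul_le_mul_left _ (hz i)
    _ = _ := mul_one _

/-- Polynomials take congruent values at congruent points. -/
theorem dvd_aeval_sub {ι : Type*} {A : Type*} [CommRing A] [Algebra ℂ A] (β : A) (u v : ι → A)
    (h : ∀ i, β ∣ u i - v i) (F : MvPolynomial ι ℂ) : β ∣ aeval u F - aeval v F := by
  rw [← Ideal.mem_span_singleton, ← Ideal.Quotient.eq_zero_iff_mem, map_sub, sub_eq_zero]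
  have h1 : ∀ w : ι → A, Ideal.Quotient.mk (Ideal.span {β}) (aeval w F) =
      aeval (fun i => Ideal.Quotient.mkₐ ℂ (Ideal.span {β}) (w i)) F := by
    intro w
    have := (comp_aeval_apply w (Ideal.Quotient.mkₐ ℂ (Ideal.span {β})) F).symm
    rw [← Ideal.Quotient.mkₐ_eq_mk ℂ]
    exact this.symm
  rw [h1, h1]
  congr 2
  funext i
  rw [← sub_eq_zero, ← map_sub]
  change Ideal.Quotient.mk _ _ = 0
  rw [Ideal.Quotient.eq_zero_iff_mem, Ideal.mem_span_singleton]
  exact h i

section bihom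

variable {s : ℕ} {F G : Poly s} {a b a' b' : ℕ}

theorem IsBihom.add (hF : IsBihom F a b) (hG : IsBihom G a b) : IsBihom (F + G) a b := by
  classical
  intro m hm
  rcases Finset.mem_union.1 (support_add hm) with h | h
  · exact hF m h
  · exact hG m h

theorem IsBihom.mul (hF : IsBihom F a b) (hG : IsBihom G a' b') :
    IsBihom (F * G) (a + a') (b + b') := by
  classical
  intro m hm
  obtain ⟨m1, h1, m2, h2, rfl⟩ := Finset.mem_add.1 (support_mul F G hm)
  simp only [Finsupp.add_apply, Finset.sum_add_distrib]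
  exact ⟨by rw [(hF _ h1).1, (hG _ h2).1], by rw [(hF _ h1).2, (hG _ h2).2]⟩

theorem isBihom_one : IsBihom (1 : Poly s) 0 0 := by
  intro m hm
  have : m = 0 := by
    have h := support_one (R := ℂ) (σ := Fin (s + 1) ⊕ Fin (s + 1))
    rw [h] at hm
    simpa using hm
  subst this
  simp

theorem IsBihom.pow (hF : IsBihom F a b) (n : ℕ) : IsBihom (F ^ n) (n * a) (n * b) := by
  induction n with
  | zero => simpa using isBihom_one
  | succ n ih =>
    rw [pow_succ, Nat.succ_mul, Nat.succ_mul]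
    exact ih.mul hF

theorem isBihom_inl (i : Fin (s + 1)) : IsBihom (X (Sum.inl i) : Poly s) 1 0 := by
  classical
  intro m hm
  rw [support_X, Finset.mem_singleton] at hm
  subst hm
  constructor
  · rw [Finset.sum_eq_single i]
    · simp
    · intro j _ hj
      rw [Finsupp.single_apply, if_neg]
      intro h
      exact hj (Sum.inl_injective h).symm
    · simp
  · refine Finset.sum_eq_zero fun j _ => ?_
    rw [Finsupp.single_apply, if_neg]
    simp

theorem isBihom_inr (i : Fin (s + 1)) : IsBihom (X (Sum.inr i) : Poly s) 0 1 := by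
  classical
  intro m hm
  rw [support_X, Finset.mem_singleton] at hm
  subst hm
  constructor
  · refine Finset.sum_eq_zero fun j _ => ?_
    rw [Finsupp.single_apply, if_neg]
    simp
  · rw [Finset.sum_eq_single i]
    · simp
    · intro j _ hj
      rw [Finsupp.single_apply, if_neg]
      intro h
      exact hj (Sum.inr_injective h).symm
    · simp

theorem isBihom_dJ (k : ℕ) : IsBihom (dJ k) 1 (2 * k + 2) := by
  unfold dJ
  refine ((IsBihom.add ?_ ?_).add ?_)
  · have := (isBihom_inl (s := 2) 0).mul (((isBihom_inr (s := 2) 0).pow (2 * k + 1)).mul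
      (isBihom_inr (s := 2) 2))
    convert this using 1 <;> ring
  · have := (isBihom_inl (s := 2) 1).mul ((((isBihom_inr (s := 2) 0).pow (2 * k)).mul
      (isBihom_inr (s := 2) 1)).mul (isBihom_inr (s := 2) 2))
    convert this using 1 <;> ring
  · have h1 := (((isBihom_inr (s := 2) 0).pow (2 * k)).mul ((isBihom_inr (s := 2) 2).pow 2))
    have h2 := ((isBihom_inr (s := 2) 1).pow (2 * k + 2))
    have h3 : IsBihom (X (Sum.inr 0) ^ (2 * k) * X (Sum.inr 2) ^ 2 + X (Sum.inr 1) ^ (2 * k + 2) :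
        Poly 2) 0 (2 * k + 2) := by
      refine IsBihom.add ?_ ?_
      · convert h1 using 1 <;> ring
      · convert h2 using 1 <;> ring
    have := (isBihom_inl (s := 2) 2).mul h3
    convert this using 1; ring

end bihom

/-- The value of `dJ k` at `(x, y)`, in any `ℂ`-algebra. -/
theorem aeval_dJ {A : Type*} [CommRing A] [Algebra ℂ A] (k : ℕ) (x y : Fin 3 → A) :
    aeval (Sum.elim x y) (dJ k) = x 0 * (y 0 ^ (2 * k + 1) * y 2) +
      x 1 * (y 0 ^ (2 * k) * y 1 * y 2) +
      x 2 * (y 0 ^ (2 * k) * y 2 ^ 2 + y 1 ^ (2 * k + 2)) := by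
  simp [dJ]

theorem eval_eq_aeval {ι : Type*} (x : ι → ℂ) (F : MvPolynomial ι ℂ) :
    eval x F = aeval x F := by
  rw [aeval_def, ← eval₂_id]
  rfl

theorem eval_dJ (k : ℕ) (x y : Fin 3 → ℂ) :
    eval (Sum.elim x y) (dJ k) = x 0 * (y 0 ^ (2 * k + 1) * y 2) +
      x 1 * (y 0 ^ (2 * k) * y 1 * y 2) +
      x 2 * (y 0 ^ (2 * k) * y 2 ^ 2 + y 1 ^ (2 * k + 2)) := by
  simp [dJ]

theorem dJ_ne_zero (k : ℕ) : dJ k ≠ 0 := by
  intro h
  have := eval_dJ k ![0, 0, 1] ![0, 1, 0]
  rw [h] at this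
  simp at this

theorem not_X_dvd (k : ℕ) (i : Fin 3) (hi : i = 0 ∨ i = 2) : ¬ (X (Sum.inr i) : Poly 2) ∣ dJ k := by
  rintro ⟨Q, hQ⟩
  have := eval_dJ k ![0, 0, 1] ![0, 1, 0]
  rw [hQ, map_mul, eval_X] at this
  rcases hi with rfl | rfl <;> simp at this

theorem irreducible_dJ (k : ℕ) : Irreducible (dJ k) := by
  classical
  have key : ∀ Q R : Poly 2, dJ k = Q * R → degreeOf (Sum.inl 0) R = 0 → IsUnit R := by
    intro Q R h hR
    have hR0 : pderiv (Sum.inl 0) R = 0 := by
      apply pderiv_eq_zero_of_notMem_vars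
      intro hmem
      obtain ⟨m, hm, hm'⟩ := (mem_vars_iff_mem_support _).1 hmem
      rw [Finsupp.mem_support_iff] at hm'
      have := (degreeOf_le_iff (d := 0)).1 hR.le m hm
      omega
    have h1 : pderiv (Sum.inl 0) (dJ k) = X (Sum.inr 0) ^ (2 * k + 1) * X (Sum.inr 2) := by
      simp [dJ, Derivation.leibniz, Derivation.leibniz_pow, pderiv_X]
    rw [h, Derivation.leibniz, hR0, smul_zero, zero_add, smul_eq_mul] at h1
    by_contra hu
    have hRne : R ≠ 0 := by
      rintro rfl
      exact dJ_ne_zero k (by rw [h, mul_zero])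
    obtain ⟨q, hq, hqR⟩ := WfDvdMonoid.exists_irreducible_factor hu hRne
    have hqp : Prime q := hq.prime
    have hq2 : q ∣ X (Sum.inr 0) ^ (2 * k + 1) * X (Sum.inr 2) := by
      rw [← h1]
      exact hqR.mul_right _
    have hcase : q ∣ X (Sum.inr 0) ∨ q ∣ X (Sum.inr 2) := by
      rcases hqp.dvd_or_dvd hq2 with h3 | h3
      · exact Or.inl (hqp.dvd_of_dvd_pow h3)
      · exact Or.inr h3
    have hfin : ∀ i : Fin 3, i = 0 ∨ i = 2 → ¬ q ∣ (X (Sum.inr i) : Poly 2) := by
      intro i hi hqi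
      have h4 : Associated q (X (Sum.inr i) : Poly 2) :=
        hq.associated_of_dvd (X_prime).irreducible hqi
      apply not_X_dvd k i hi
      rw [h]
      exact (h4.symm.dvd.trans hqR).mul_left _
    rcases hcase with h3 | h3
    · exact hfin 0 (Or.inl rfl) h3
    · exact hfin 2 (Or.inr rfl) h3
  refine ⟨?_, ?_⟩
  · intro hu
    have := hu.map (eval (Sum.elim ![0, 0, 0] ![0, 0, 0]) : Poly 2 →+* ℂ)
    rw [eval_dJ] at this
    simp at this
  · intro Q R h
    have hQ0 : Q ≠ 0 := by
      rintro rfl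
      exact dJ_ne_zero k (by rw [h, zero_mul])
    have hR0 : R ≠ 0 := by
      rintro rfl
      exact dJ_ne_zero k (by rw [h, mul_zero])
    have hd : degreeOf (Sum.inl 0) (dJ k) ≤ 1 := by
      rw [degreeOf_le_iff]
      intro m hm
      have h5 := (isBihom_dJ k m hm).1
      have h6 := Finset.single_le_sum (f := fun i => m (Sum.inl i)) (fun _ _ => Nat.zero_le _)
        (Finset.mem_univ 0)
      exact h6.trans h5.le
    rw [h, degreeOf_mul_eq hQ0 hR0] at hd
    have : degreeOf (Sum.inl 0) Q = 0 ∨ degreeOf (Sum.inl 0) R = 0 := by omega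
    rcases this with h6 | h6
    · exact Or.inl (key R Q (by rw [h, mul_comm]) h6)
    · exact Or.inr (key Q R h h6)

end Pool.Agent.X329.Grid
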