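import Mathlib
set_option autoImplicit false
open Polynomial UniqueFactorizationMonoid

namespace Pool.Agent.X329.Grid

theorem exists_gcd (P Q : ℂ[X]) (hP0 : P ≠ 0) :
    ∃ G P' Q' : ℂ[X], G ≠ 0 ∧ IsCoprime P' Q' ∧ P = G * P' ∧ Q = G * Q' := by
  classical
  obtain ⟨P', hP'⟩ := EuclideanDomain.gcd_dvd_left P Q
  obtain ⟨Q', hQ'⟩ := EuclideanDomain.gcd_dvd_right P Q
  have hG : EuclideanDomain.gcd P Q ≠ 0 := by
    intro h
    exact hP0 (EuclideanDomain.gcd_eq_zero_iff.1 h).1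
  refine ⟨_, P', Q', hG, ?_, hP', hQ'⟩
  refine ⟨EuclideanDomain.gcdA P Q, EuclideanDomain.gcdB P Q, ?_⟩
  have h := EuclideanDomain.gcd_eq_gcd_ab P Q
  apply mul_left_cancel₀ hG
  rw [mul_one, mul_add]
  calc _ = (EuclideanDomain.gcd P Q * P') * EuclideanDomain.gcdA P Q
        + (EuclideanDomain.gcd P Q * Q') * EuclideanDomain.gcdB P Q := by ring
    _ = _ := by rw [← hP', ← hQ', ← h]

theorem mason_bound (a0 a1 e p c : ℂ[X]) (k d : ℕ) (hcop : IsCoprime a0 a1)
    (ha0 : a0 ≠ 0) (ha1 : a1 ≠ 0) (he : e ≠ 0) (hp : p ≠ 0) (hc : c ≠ 0)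
    (hrel : (a0 ^ k * p) ^ 2 - (2 * (e * a1 ^ (k + 1))) ^ 2 = c ^ 2)
    (h1 : a0.natDegree + e.natDegree ≤ d) (h2 : a1.natDegree + e.natDegree ≤ d)
    (h3 : p.natDegree ≤ d) (hnc : a0.natDegree ≠ 0 ∨ a1.natDegree ≠ 0) : k ≤ 5 * d := by
  classical
  set P := a0 ^ k * p with hP
  set Q := 2 * (e * a1 ^ (k + 1)) with hQ
  have h2C : (2 : ℂ[X]) = C 2 := (C_ofNat 2).symm
  have h20 : (2 : ℂ[X]) ≠ 0 := by
    rw [h2C]; exact C_ne_zero.2 (by norm_num)
  have hP0 : P ≠ 0 := mul_ne_zero (pow_ne_zero _ ha0) hp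
  have hQ0 : Q ≠ 0 := mul_ne_zero h20 (mul_ne_zero he (pow_ne_zero _ ha1))
  obtain ⟨G, P', Q', hG0, hcopPQ, hPG, hQG⟩ := exists_gcd P Q hP0
  have hGc : G ∣ c := by
    have : G ^ 2 ∣ c ^ 2 := by
      rw [← hrel, hPG, hQG]
      exact ⟨P' ^ 2 - Q' ^ 2, by ring⟩
    exact (IsIntegrallyClosed.pow_dvd_pow_iff two_ne_zero).1 this
  obtain ⟨c', hc'⟩ := hGc
  have hP'0 : P' ≠ 0 := by rintro rfl; apply hP0; rw [hPG, mul_zero]
  have hQ'0 : Q' ≠ 0 := by rintro rfl; apply hQ0; rw [hQG, mul_zero]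
  have hc'0 : c' ≠ 0 := by rintro rfl; apply hc; rw [hc', mul_zero]
  have hrel' : P' ^ 2 - Q' ^ 2 = c' ^ 2 := by
    have : G ^ 2 * (P' ^ 2 - Q' ^ 2) = G ^ 2 * c' ^ 2 := by
      have := hrel
      rw [hPG, hQG, hc'] at this
      linear_combination this
    exact mul_left_cancel₀ (pow_ne_zero 2 hG0) this
  -- the common divisor has small degree
  have hGd : G ∣ p * e := by
    obtain ⟨u, v, huv⟩ := (IsCoprime.pow (m := k) (n := k + 1) hcop)
    have e2 : (2 : ℂ[X]) * C (1 / 2) = 1 := by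
      rw [h2C, ← C_mul]; norm_num
    have : p * e = P * (e * u) + Q * (p * v * C (1 / 2)) := by
      rw [hP, hQ]
      linear_combination (-(p * e)) * huv - (e * a1 ^ (k + 1) * p * v) * e2
    rw [this, hPG, hQG]
    exact ⟨P' * (e * u) + Q' * (p * v * C (1 / 2)), by ring⟩
  have hGdeg : G.natDegree ≤ p.natDegree + e.natDegree := by
    rw [← natDegree_mul hp he]
    exact natDegree_le_of_dvd hGd (mul_ne_zero hp he)
  -- Mason-Stothers
  have hcop1 : IsCoprime (Q' ^ 2) (c' ^ 2) := by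
    have h4 : IsCoprime (Q' ^ 2) (P' ^ 2) := (hcopPQ.pow (m := 2) (n := 2)).symm
    have h5 : P' ^ 2 = c' ^ 2 + Q' ^ 2 * 1 := by linear_combination hrel'
    rw [h5] at h4
    exact IsCoprime.of_add_mul_left_right h4
  have hsum : Q' ^ 2 + c' ^ 2 + (-P' ^ 2) = 0 := by linear_combination -hrel'
  have hbnd : (radical (Q' ^ 2 * c' ^ 2 * (-P' ^ 2))).natDegree ≤
      a0.natDegree + a1.natDegree + e.natDegree + p.natDegree + c'.natDegree := by
    have hb0 : a0 * a1 * e * p * c' ≠ 0 :=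
      mul_ne_zero (mul_ne_zero (mul_ne_zero (mul_ne_zero ha0 ha1) he) hp) hc'0
    have hd : radical (Q' ^ 2 * c' ^ 2 * (-P' ^ 2)) ∣ a0 * a1 * e * p * c' := by
      rw [← exists_dvd_pow_iff_radical_dvd]
      · refine ⟨2 * (k + 1) + 2 + 2 * (k + 1), ?_⟩
        have hd1 : P' ∣ (a0 * a1 * e * p * c') ^ (k + 1) := by
          refine (Dvd.intro_left G hPG.symm : P' ∣ P).trans ?_
          rw [hP]
          exact ⟨a0 * (a1 * e * c') ^ (k + 1) * p ^ k, by ring⟩
        have hd2 : Q' ∣ (a0 * a1 * e * p * c') ^ (k + 1) := by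
          refine (Dvd.intro_left G hQG.symm : Q' ∣ Q).trans ?_
          rw [hQ]
          refine ⟨C (1 / 2) * (a0 * p * c') ^ (k + 1) * e ^ k, ?_⟩
          have e2 : (2 : ℂ[X]) * C (1 / 2) = 1 := by
            rw [h2C, ← C_mul]; norm_num
          linear_combination (-(a0 * a1 * e * p * c') ^ (k + 1)) * e2
        have hd3 : c' ∣ a0 * a1 * e * p * c' := Dvd.intro_left _ rfl
        have : Q' ^ 2 * c' ^ 2 * (-P' ^ 2) ∣ ((a0 * a1 * e * p * c') ^ (k + 1)) ^ 2 *
            (a0 * a1 * e * p * c') ^ 2 * ((a0 * a1 * e * p * c') ^ (k + 1)) ^ 2 := by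
          refine mul_dvd_mul (mul_dvd_mul (pow_dvd_pow_of_dvd hd2 2) (pow_dvd_pow_of_dvd hd3 2)) ?_
          rw [neg_dvd]
          exact pow_dvd_pow_of_dvd hd1 2
        refine this.trans (dvd_of_eq ?_)
        ring
      · exact mul_ne_zero (mul_ne_zero (pow_ne_zero 2 hQ'0) (pow_ne_zero 2 hc'0))
          (neg_ne_zero.2 (pow_ne_zero 2 hP'0))
    refine (natDegree_le_of_dvd hd hb0).trans ?_
    refine natDegree_mul_le.trans (Nat.add_le_add_right ?_ _)
    refine natDegree_mul_le.trans (Nat.add_le_add_right ?_ _)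
    refine natDegree_mul_le.trans (Nat.add_le_add_right ?_ _)
    exact natDegree_mul_le
  have hcd : c'.natDegree ≤ max P'.natDegree Q'.natDegree := by
    have h6 : 2 * c'.natDegree = (P' ^ 2 - Q' ^ 2).natDegree := by rw [hrel', natDegree_pow]
    have h7 := natDegree_sub_le (P' ^ 2) (Q' ^ 2)
    rw [← h6, natDegree_pow, natDegree_pow] at h7
    omega
  have hPdeg : k * a0.natDegree + p.natDegree = G.natDegree + P'.natDegree := by
    have := congrArg natDegree hPG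
    rw [hP, natDegree_mul (pow_ne_zero _ ha0) hp, natDegree_pow, natDegree_mul hG0 hP'0] at this
    exact this
  have hQdeg : e.natDegree + (k + 1) * a1.natDegree = G.natDegree + Q'.natDegree := by
    have := congrArg natDegree hQG
    rw [hQ, natDegree_mul h20 (mul_ne_zero he (pow_ne_zero _ ha1)),
      natDegree_mul he (pow_ne_zero _ ha1), natDegree_pow, natDegree_mul hG0 hQ'0, h2C,
      natDegree_C, zero_add] at this
    exact this
  have hmain : max P'.natDegree Q'.natDegree ≤ 3 * d := by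
    rcases Polynomial.abc (pow_ne_zero 2 hQ'0) (pow_ne_zero 2 hc'0)
      (neg_ne_zero.2 (pow_ne_zero 2 hP'0)) hcop1 hsum with h | h
    · obtain ⟨h8, -, h9⟩ := h
      rw [natDegree_pow] at h8
      rw [natDegree_neg, natDegree_pow] at h9
      have h10 := h8.trans hbnd
      have h11 := h9.trans hbnd
      omega
    · obtain ⟨h8, -, h9⟩ := h
      have h12 := Polynomial.derivative_eq_zero.1 h8
      have h13 := Polynomial.derivative_eq_zero.1 h9
      rw [natDegree_pow] at h12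
      rw [natDegree_neg, natDegree_pow] at h13
      omega
  rcases hnc with h | h
  · have : k ≤ k * a0.natDegree := Nat.le_mul_of_pos_right k (Nat.pos_of_ne_zero h)
    omega
  · have : k + 1 ≤ (k + 1) * a1.natDegree := Nat.le_mul_of_pos_right _ (Nat.pos_of_ne_zero h)
    omega

end Pool.Agent.X329.Grid
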