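import Mathlib
import Pool.Agent.X329.Grid.Defs
import Pool.Agent.X329.Grid.Basic
import Pool.Agent.X329.Grid.Mason

set_option autoImplicit false

namespace Pool.Agent.X329.Grid

open MvPolynomial

/-- A nonzero polynomial has a nonzero value. -/
theorem exists_ne {ι : Type*} {N : MvPolynomial ι ℂ} (h : N ≠ 0) : ∃ x : ι → ℂ, eval x N ≠ 0 := by
  by_contra hcon
  push Not at hcon
  exact h (MvPolynomial.funext fun x => by rw [hcon x, map_zero])

theorem linear_ne_zero (v : Fin 3 → ℂ) (h : v ≠ 0) :
    (∑ i, C (v i) * X i : MvPolynomial (Fin 3) ℂ) ≠ 0 := by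
  intro h0
  apply h
  funext j
  have := congrArg (eval (Pi.single j (1 : ℂ))) h0
  rw [map_zero, map_sum, Finset.sum_eq_single j] at this
  · simpa using this
  · intro i _ hi
    simp [hi]
  · simp

/-- Degree bound: if `F` vanishes at the points `(x, z (τ))` with `f (x) ≠ 0` and `x . ψ (τ) = 0`,
for all but finitely many `τ`, then the degree of `ψ` is at most the degree of `F` in the second
group of variables. -/
theorem degree_bound {F : Poly 2} {a b : ℕ} (hF : IsBihom F a b) {e : ℕ}
    {f : MvPolynomial (Fin 3) ℂ} (hf0 : f ≠ 0) (hf : f.IsHomogeneous e)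
    (z ψ : Fin 3 → Polynomial ℂ) (hz : ∀ i, (z i).natDegree ≤ 1)
    (hψ : ∀ τ : ℂ, (fun i => (ψ i).eval τ) ≠ 0)
    (τ₀ : ℂ) (x₀ : Fin 3 → ℂ) (hx₀ : eval (Sum.elim x₀ fun i => (z i).eval τ₀) F ≠ 0)
    (δ : Polynomial ℂ) (hδ : δ ≠ 0)
    (H : ∀ (x : Fin 3 → ℂ) (τ : ℂ), eval x f ≠ 0 → δ.eval τ ≠ 0 →
      ∑ i, x i * (ψ i).eval τ = 0 → eval (Sum.elim x fun i => (z i).eval τ) F = 0) :
    ∀ i, (ψ i).natDegree ≤ b := by
  classical
  by_contra hcon
  push Not at hcon
  -- the maximal degree
  obtain ⟨j, -, hj⟩ := Finset.exists_max_image Finset.univ (fun i => (ψ i).natDegree)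
    ⟨0, Finset.mem_univ _⟩
  set D := (ψ j).natDegree with hD
  have hDb : b < D := by
    obtain ⟨i, hi⟩ := hcon
    exact hi.trans_le (hj i (Finset.mem_univ i))
  have hlead : (fun i => (ψ i).coeff D) ≠ 0 := by
    intro h
    have h1 := congrFun h j
    simp only [Pi.zero_apply, hD, Polynomial.coeff_natDegree, Polynomial.leadingCoeff_eq_zero] at h1
    rw [hD, h1] at hDb
    simp at hDb
  -- choice of `B`
  set ΦB : MvPolynomial (Fin 3) ℂ :=
    aeval (Sum.elim (fun i => X i) (fun i => C ((z i).eval τ₀))) F with hΦB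
  have hΦBeval : ∀ x : Fin 3 → ℂ, eval x ΦB = eval (Sum.elim x fun i => (z i).eval τ₀) F := by
    intro x
    rw [hΦB, eval_eq_aeval, eval_eq_aeval, comp_aeval_apply]
    congr 2
    funext i
    rcases i with i | i <;> simp
  have hΦB0 : ΦB ≠ 0 := by
    intro h
    apply hx₀
    rw [← hΦBeval, h, map_zero]
  obtain ⟨B, hB⟩ := exists_ne (mul_ne_zero (mul_ne_zero hf0 hΦB0) (linear_ne_zero _ hlead))
  rw [map_mul, map_mul] at hB
  have hB1 : eval B f ≠ 0 := left_ne_zero_of_mul (left_ne_zero_of_mul hB)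
  have hB2 : eval (Sum.elim B fun i => (z i).eval τ₀) F ≠ 0 := by
    rw [← hΦBeval]
    exact right_ne_zero_of_mul (left_ne_zero_of_mul hB)
  have hB3 : ∑ i, B i * (ψ i).coeff D ≠ 0 := by
    have := right_ne_zero_of_mul hB
    rw [map_sum] at this
    simpa [mul_comm] using this
  set β : Polynomial ℂ := ∑ i, Polynomial.C (B i) * ψ i with hβ
  have hβc : β.coeff D ≠ 0 := by
    rw [hβ, Polynomial.finsetSum_coeff]
    simpa using hB3
  have hβ0 : β ≠ 0 := by
    rintro h
    rw [h] at hβc
    simp at hβc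
  have hβD : D ≤ β.natDegree := Polynomial.le_natDegree_of_ne_zero hβc
  -- choice of `A`
  have hNA : (∏ τ ∈ β.roots.toFinset, (∑ i, C ((ψ i).eval τ) * X i : MvPolynomial (Fin 3) ℂ)) ≠ 0 :=
    Finset.prod_ne_zero_iff.2 fun τ _ => linear_ne_zero _ (hψ τ)
  obtain ⟨A, hA⟩ := exists_ne hNA
  set α : Polynomial ℂ := ∑ i, Polynomial.C (A i) * ψ i with hα
  have hcop : IsCoprime β α := by
    rw [Polynomial.isCoprime_iff_aeval_ne_zero_of_isAlgClosed ℂ ℂ]
    intro τ
    by_cases h : Polynomial.aeval τ β = 0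
    · right
      have h1 : τ ∈ β.roots.toFinset := by
        rw [Multiset.mem_toFinset, Polynomial.mem_roots hβ0]
        simpa [Polynomial.IsRoot] using h
      rw [map_prod, Finset.prod_ne_zero_iff] at hA
      have h2 := hA τ h1
      rw [hα]
      rw [map_sum] at h2 ⊢
      simpa [mul_comm] using h2
    · left
      exact h
  have hsum : ∑ i, (β * Polynomial.C (A i) - α * Polynomial.C (B i)) * ψ i = 0 := by
    have h1 : ∑ i, (β * Polynomial.C (A i) - α * Polynomial.C (B i)) * ψ i = β * α - α * β := by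
      conv_rhs => rw [hα, hβ]
      rw [← hα, ← hβ, Finset.mul_sum, Finset.mul_sum, ← Finset.sum_sub_distrib]
      refine Finset.sum_congr rfl fun i _ => ?_
      ring
    rw [h1]
    ring
  set Xv : Fin 3 → Polynomial ℂ := fun i => β * Polynomial.C (A i) - α * Polynomial.C (B i) with hXv
  have hXveval : ∀ τ : ℂ, (fun i => (Xv i).eval τ) = fun i => β.eval τ * A i - α.eval τ * B i := by
    intro τ
    funext i
    simp [hXv]
  have hcongr : ∀ i, β ∣ Xv i - (-α) * Polynomial.C (B i) := by
    intro i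
    exact ⟨Polynomial.C (A i), by rw [hXv]; ring⟩
  have hevalF : ∀ (τ : ℂ) (u v : Fin 3 → Polynomial ℂ), (aeval (Sum.elim u v) F : Polynomial ℂ).eval τ =
      eval (Sum.elim (fun i => (u i).eval τ) fun i => (v i).eval τ) F := by
    intro τ u v
    rw [eval_eq_aeval, ← Polynomial.coe_aeval_eq_eval, comp_aeval_apply]
    congr 2
    funext i
    rcases i with i | i <;> simp
  have hevalf : ∀ (τ : ℂ) (u : Fin 3 → Polynomial ℂ), (aeval u f : Polynomial ℂ).eval τ =
      eval (fun i => (u i).eval τ) f := by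
    intro τ u
    rw [eval_eq_aeval, ← Polynomial.coe_aeval_eq_eval, comp_aeval_apply]
  by_cases hfhat : (aeval Xv f : Polynomial ℂ) = 0
  · -- `β` divides a nonzero constant
    have h1 : β ∣ aeval Xv f - aeval (fun i => (-α) * Polynomial.C (B i)) f :=
      dvd_aeval_sub β _ _ hcongr f
    rw [hfhat, zero_sub, dvd_neg, hom_aeval_smul hf] at h1
    have h2 : (aeval (fun i => (Polynomial.C (B i) : Polynomial ℂ)) f : Polynomial ℂ) =
        Polynomial.C (eval B f) := by
      rw [eval_eq_aeval]
      exact (comp_aeval_apply (f := B) (φ := (Algebra.ofId ℂ (Polynomial ℂ))) f).symm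
    rw [h2] at h1
    have h3 : IsCoprime β ((-α) ^ e) := (hcop.neg_right).pow_right
    have h4 : β ∣ Polynomial.C (eval B f) := h3.dvd_of_dvd_mul_left h1
    have h5 := Polynomial.natDegree_le_of_dvd h4 (Polynomial.C_ne_zero.2 hB1)
    rw [Polynomial.natDegree_C] at h5
    omega
  · have hFhat : (aeval (Sum.elim Xv z) F : Polynomial ℂ) = 0 := by
      have h1 : (aeval (Sum.elim Xv z) F : Polynomial ℂ) * ((aeval Xv f : Polynomial ℂ) * δ) = 0 := by
        apply Polynomial.funext
        intro τ
        rw [Polynomial.eval_mul, Polynomial.eval_mul, Polynomial.eval_zero]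
        by_cases h2 : (aeval Xv f : Polynomial ℂ).eval τ = 0
        · rw [h2]; ring
        by_cases h3 : δ.eval τ = 0
        · rw [h3]; ring
        have h4 : eval (Sum.elim (fun i => (Xv i).eval τ) fun i => (z i).eval τ) F = 0 := by
          refine H _ τ ?_ h3 ?_
          · rwa [hevalf] at h2
          · have h5 := congrArg (Polynomial.eval τ) hsum
            rw [Polynomial.eval_finsetSum, Polynomial.eval_zero] at h5
            rw [← h5]
            refine Finset.sum_congr rfl fun i _ => ?_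
            rw [Polynomial.eval_mul]
        rw [hevalF, h4, zero_mul]
      exact (mul_eq_zero.1 h1).resolve_right (mul_ne_zero hfhat hδ)
    have h1 : β ∣ aeval (Sum.elim Xv z) F -
        aeval (Sum.elim (fun i => (-α) * Polynomial.C (B i)) z) F := by
      apply dvd_aeval_sub
      rintro (i | i)
      · exact hcongr i
      · simp
    rw [hFhat, zero_sub, dvd_neg, hF.aeval_smul_left] at h1
    have h3 : IsCoprime β ((-α) ^ a) := (hcop.neg_right).pow_right
    have h4 := h3.dvd_of_dvd_mul_left h1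
    have h6 : (aeval (Sum.elim (fun i => (Polynomial.C (B i) : Polynomial ℂ)) z) F :
        Polynomial ℂ) ≠ 0 := by
      intro h
      apply hB2
      have := hevalF τ₀ (fun i => Polynomial.C (B i)) z
      rw [h] at this
      simpa using this.symm
    have h5 := Polynomial.natDegree_le_of_dvd h4 h6
    have h7 := h5.trans (natDegree_aeval_le hF B z hz)
    omega

end Pool.Agent.X329.Grid
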