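import Mathlib
import Pool.Agent.X329.Grid.Core

set_option autoImplicit false

namespace Pool.Agent.X329.Grid

open MvPolynomial

theorem eval_aeval_poly {ι : Type*} (g : MvPolynomial ι ℂ) (u : ι → Polynomial ℂ) (τ : ℂ) :
    (aeval u g : Polynomial ℂ).eval τ = eval (fun i => (u i).eval τ) g := by
  rw [eval_eq_aeval, ← Polynomial.coe_aeval_eq_eval, comp_aeval_apply]

theorem aeval_bind₁' {ι κ : Type*} {A : Type*} [CommRing A] [Algebra ℂ A] (u : κ → A)
    (σ : ι → MvPolynomial κ ℂ) (g : MvPolynomial ι ℂ) :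
    aeval u (bind₁ σ g) = aeval (fun i => aeval u (σ i)) g := by
  rw [aeval_bind₁]

/-- The main step: `dJ k` does not agree with a polynomial of low degree in `σ (y)`, on a
nonempty open set. -/
theorem core {k a b : ℕ} (hkb : 5 * b < k) {F : Poly 2} (hF : IsBihom F a b)
    {σ ρ : Fin 3 → MvPolynomial (Fin 3) ℂ} {ms : ℕ}
    (hσ : ∀ i, (σ i).IsHomogeneous ms)
    {G G' : MvPolynomial (Fin 3) ℂ} (hG : G ≠ 0) (hG' : G' ≠ 0)
    (h1 : ∀ i, bind₁ σ (ρ i) = G * X i) (h2 : ∀ i, bind₁ ρ (σ i) = G' * X i)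
    {e1 e2 : ℕ} {f g : MvPolynomial (Fin 3) ℂ} (hf0 : f ≠ 0) (hg0 : g ≠ 0)
    (hf : f.IsHomogeneous e1) (hg : g.IsHomogeneous e2)
    (H : ∀ x y : Fin 3 → ℂ, eval x f ≠ 0 → eval y g ≠ 0 →
      (eval (Sum.elim x y) (dJ k) = 0 ↔ eval (Sum.elim x fun i => eval y (σ i)) F = 0)) :
    False := by
  classical
  -- a point where `F (x, σ (y)) ≠ 0`
  obtain ⟨x₀, ys, hx₀⟩ : ∃ x y : Fin 3 → ℂ, eval (Sum.elim x fun i => eval y (σ i)) F ≠ 0 := by
    have hN : (rename Sum.inl f * rename Sum.inr g * dJ k : Poly 2) ≠ 0 := by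
      refine mul_ne_zero (mul_ne_zero ?_ ?_) (dJ_ne_zero k)
      · rw [Ne, ← map_zero (rename (R := ℂ) (Sum.inl : Fin 3 → Fin 3 ⊕ Fin 3)),
          (rename_injective _ Sum.inl_injective).eq_iff]
        exact hf0
      · rw [Ne, ← map_zero (rename (R := ℂ) (Sum.inr : Fin 3 → Fin 3 ⊕ Fin 3)),
          (rename_injective _ Sum.inr_injective).eq_iff]
        exact hg0
    obtain ⟨p, hp⟩ := exists_ne hN
    rw [map_mul, map_mul, eval_rename, eval_rename] at hp
    refine ⟨p ∘ Sum.inl, p ∘ Sum.inr, fun h => ?_⟩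
    have h3 := (H (p ∘ Sum.inl) (p ∘ Sum.inr) (left_ne_zero_of_mul (left_ne_zero_of_mul hp))
      (right_ne_zero_of_mul (left_ne_zero_of_mul hp))).2 h
    apply right_ne_zero_of_mul hp
    rw [← h3]
    congr 1
    congr 1
    funext i
    rcases i with i | i <;> rfl
  -- some `σ i` is not zero
  obtain ⟨i₀, hi₀⟩ : ∃ i, σ i ≠ 0 := by
    by_contra hcon
    push Not at hcon
    have h3 := h2 0
    rw [hcon 0, map_zero] at h3
    exact mul_ne_zero hG' (X_ne_zero 0) h3.symm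
  set Φ : MvPolynomial (Fin 3) ℂ := aeval (Sum.elim (fun i => C (x₀ i)) σ) F with hΦ
  have hΦeval : ∀ y : Fin 3 → ℂ, eval y Φ = eval (Sum.elim x₀ fun i => eval y (σ i)) F := by
    intro y
    rw [hΦ, eval_eq_aeval, eval_eq_aeval, comp_aeval_apply]
    congr 2
    funext i
    rcases i with i | i
    · simp
    · exact (eval_eq_aeval y (σ i)).symm
  have hΦ0 : Φ ≠ 0 := by
    intro h
    apply hx₀
    rw [← hΦeval, h, map_zero]
  set W : MvPolynomial (Fin 3) ℂ := X 0 ^ (2 * k) * X 2 ^ 2 - X 1 ^ (2 * k + 2) with hW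
  set W2 : MvPolynomial (Fin 3) ℂ := X 0 ^ (2 * k) * X 2 ^ 2 + X 1 ^ (2 * k + 2) with hW2
  have hW0 : W ≠ 0 := by
    intro h
    have := congrArg (eval ![0, 1, 0]) h
    rw [hW] at this
    simp at this
  have hW20 : W2 ≠ 0 := by
    intro h
    have := congrArg (eval ![0, 1, 0]) h
    rw [hW2] at this
    simp at this
  obtain ⟨y₀, hy₀⟩ := exists_ne (mul_ne_zero (mul_ne_zero (mul_ne_zero (mul_ne_zero (mul_ne_zero
    (mul_ne_zero (mul_ne_zero (mul_ne_zero hΦ0 hg0) hG) hi₀) (X_ne_zero (0 : Fin 3)))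
    (X_ne_zero (1 : Fin 3))) (X_ne_zero (2 : Fin 3))) hW0) hW20)
  simp only [map_mul, eval_X] at hy₀
  have hyW2 : eval y₀ W2 ≠ 0 := right_ne_zero_of_mul hy₀
  replace hy₀ := left_ne_zero_of_mul hy₀
  have hyW : eval y₀ W ≠ 0 := right_ne_zero_of_mul hy₀
  replace hy₀ := left_ne_zero_of_mul hy₀
  have hy2 : y₀ 2 ≠ 0 := right_ne_zero_of_mul hy₀
  replace hy₀ := left_ne_zero_of_mul hy₀
  have hy1 : y₀ 1 ≠ 0 := right_ne_zero_of_mul hy₀
  replace hy₀ := left_ne_zero_of_mul hy₀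
  have hy0 : y₀ 0 ≠ 0 := right_ne_zero_of_mul hy₀
  replace hy₀ := left_ne_zero_of_mul hy₀
  have hyσ : eval y₀ (σ i₀) ≠ 0 := right_ne_zero_of_mul hy₀
  replace hy₀ := left_ne_zero_of_mul hy₀
  have hyG : eval y₀ G ≠ 0 := right_ne_zero_of_mul hy₀
  replace hy₀ := left_ne_zero_of_mul hy₀
  have hyg : eval y₀ g ≠ 0 := right_ne_zero_of_mul hy₀
  have hyΦ : eval (Sum.elim x₀ fun i => eval y₀ (σ i)) F ≠ 0 := by
    rw [← hΦeval]
    exact left_ne_zero_of_mul hy₀
  have hN1 : (C (y₀ 0) * X 1 - C (y₀ 1) * X 0 : MvPolynomial (Fin 3) ℂ) ≠ 0 := by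
    intro h
    have := congrArg (eval ![0, 1, 0]) h
    simp [hy0] at this
  obtain ⟨y₁, hy₁⟩ := exists_ne (mul_ne_zero hG hN1)
  rw [map_mul] at hy₁
  have hyG1 : eval y₁ G ≠ 0 := left_ne_zero_of_mul hy₁
  have hyN1 : y₀ 0 * y₁ 1 - y₀ 1 * y₁ 0 ≠ 0 := by
    have := right_ne_zero_of_mul hy₁
    simpa using this
  -- the line and the curve
  set z : Fin 3 → Polynomial ℂ := fun i => Polynomial.C (eval y₀ (σ i)) +
    Polynomial.X * Polynomial.C (eval y₁ (σ i) - eval y₀ (σ i)) with hz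
  have hz0 : ∀ i, (z i).eval 0 = eval y₀ (σ i) := by intro i; simp [hz]
  have hz1 : ∀ i, (z i).eval 1 = eval y₁ (σ i) := by intro i; simp [hz]
  have hzd : ∀ i, (z i).natDegree ≤ 1 := by
    intro i
    rw [hz]
    refine (Polynomial.natDegree_add_le _ _).trans (max_le (by simp) ?_)
    refine (Polynomial.natDegree_mul_le).trans ?_
    rw [Polynomial.natDegree_C, Polynomial.natDegree_X]
  set yy : Fin 3 → Polynomial ℂ := fun i => aeval z (ρ i) with hyy
  have hyy0 : ∀ i, (yy i).eval 0 = eval y₀ G * y₀ i := by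
    intro i
    rw [hyy]
    simp only
    rw [eval_aeval_poly]
    simp only [hz0]
    have h3 := congrArg (aeval y₀) (h1 i)
    rw [aeval_bind₁', map_mul, aeval_X] at h3
    simp only [← eval_eq_aeval] at h3
    rw [← h3, eval_eq_aeval]
  have hyy1 : ∀ i, (yy i).eval 1 = eval y₁ G * y₁ i := by
    intro i
    rw [hyy]
    simp only
    rw [eval_aeval_poly]
    simp only [hz1]
    have h3 := congrArg (aeval y₁) (h1 i)
    rw [aeval_bind₁', map_mul, aeval_X] at h3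
    simp only [← eval_eq_aeval] at h3
    rw [← h3, eval_eq_aeval]
  set γ : Polynomial ℂ := aeval z G' with hγ
  have hσyy : ∀ i, aeval yy (σ i) = γ * z i := by
    intro i
    have h3 := congrArg (aeval z) (h2 i)
    rw [aeval_bind₁', map_mul, aeval_X] at h3
    exact h3
  have hγ0 : γ ≠ 0 := by
    intro h
    have h3 := congrArg (Polynomial.eval 0) (hσyy i₀)
    rw [h, zero_mul, Polynomial.eval_zero, eval_aeval_poly] at h3
    simp only [hyy0] at h3
    have h4 := hom_aeval_smul (hσ i₀) (eval y₀ G) y₀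
    rw [← eval_eq_aeval, ← eval_eq_aeval, h3] at h4
    exact mul_ne_zero (pow_ne_zero _ hyG) hyσ h4.symm
  -- the three polynomials
  set φ0 := yy 0 ^ (2 * k + 1) * yy 2 with hφ0
  set φ1 := yy 0 ^ (2 * k) * yy 1 * yy 2 with hφ1
  set φ2 := yy 0 ^ (2 * k) * yy 2 ^ 2 + yy 1 ^ (2 * k + 2) with hφ2
  have ne_of_eval : ∀ (p : Polynomial ℂ), p.eval 0 ≠ 0 → p ≠ 0 := by
    rintro p hp rfl
    exact hp (Polynomial.eval_zero)
  have hyy00 : yy 0 ≠ 0 := ne_of_eval _ (by rw [hyy0]; exact mul_ne_zero hyG hy0)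
  have hyy10 : yy 1 ≠ 0 := ne_of_eval _ (by rw [hyy0]; exact mul_ne_zero hyG hy1)
  have hyy20 : yy 2 ≠ 0 := ne_of_eval _ (by rw [hyy0]; exact mul_ne_zero hyG hy2)
  have hφ00 : φ0 ≠ 0 := mul_ne_zero (pow_ne_zero _ hyy00) hyy20
  have hφ10 : φ1 ≠ 0 := mul_ne_zero (mul_ne_zero (pow_ne_zero _ hyy00) hyy10) hyy20
  have hφ20 : φ2 ≠ 0 := by
    apply ne_of_eval
    have h3 : φ2.eval 0 = (eval y₀ G) ^ (2 * k + 2) * eval y₀ W2 := by
      rw [hφ2, hW2]
      simp only [Polynomial.eval_add, Polynomial.eval_mul, Polynomial.eval_pow, hyy0, map_add,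
        map_mul, map_pow, eval_X]
      ring
    rw [h3]
    exact mul_ne_zero (pow_ne_zero _ hyG) hyW2
  have hw0 : yy 0 ^ (2 * k) * yy 2 ^ 2 - yy 1 ^ (2 * k + 2) ≠ 0 := by
    apply ne_of_eval
    have h3 : (yy 0 ^ (2 * k) * yy 2 ^ 2 - yy 1 ^ (2 * k + 2)).eval 0 =
        (eval y₀ G) ^ (2 * k + 2) * eval y₀ W := by
      rw [hW]
      simp only [Polynomial.eval_sub, Polynomial.eval_mul, Polynomial.eval_pow, hyy0, map_sub,
        map_mul, map_pow, eval_X]
      ring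
    rw [h3]
    exact mul_ne_zero (pow_ne_zero _ hyG) hyW
  obtain ⟨G1, a0, a1, hG10, hcop1, hG1a, hG1b⟩ := exists_gcd φ0 φ1 hφ00
  obtain ⟨G2, e, p, hG20, hcop2, hG2a, hG2b⟩ := exists_gcd G1 φ2 hG10
  have ha0 : a0 ≠ 0 := by rintro rfl; exact hφ00 (by rw [hG1a, mul_zero])
  have ha1 : a1 ≠ 0 := by rintro rfl; exact hφ10 (by rw [hG1b, mul_zero])
  have he : e ≠ 0 := by rintro rfl; exact hG10 (by rw [hG2a, mul_zero])
  have hp : p ≠ 0 := by rintro rfl; exact hφ20 (by rw [hG2b, mul_zero])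
  have hratio : a0 * yy 1 = a1 * yy 0 := by
    have h3 : φ0 * yy 1 = φ1 * yy 0 := by rw [hφ0, hφ1]; ring
    rw [hG1a, hG1b] at h3
    exact mul_left_cancel₀ hG10 (by linear_combination h3)
  set ψ : Fin 3 → Polynomial ℂ := ![e * a0, e * a1, p] with hψ
  -- the degree bound
  have hdeg : ∀ i, (ψ i).natDegree ≤ b := by
    have hyyg : aeval yy g ≠ 0 := by
      apply ne_of_eval
      rw [eval_aeval_poly]
      simp only [hyy0]
      have h4 := hom_aeval_smul hg (eval y₀ G) y₀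
      rw [← eval_eq_aeval, ← eval_eq_aeval] at h4
      rw [h4]
      exact mul_ne_zero (pow_ne_zero _ hyG) hyg
    refine degree_bound hF hf0 hf z ψ hzd ?_ 0 x₀ ?_ (aeval yy g * γ) (mul_ne_zero hyyg hγ0) ?_
    · intro τ h3
      have h4 := congrFun h3 0
      have h5 := congrFun h3 1
      have h6 := congrFun h3 2
      simp only [hψ, Matrix.cons_val_zero, Matrix.cons_val_one, Matrix.cons_val, Pi.zero_apply,
        Polynomial.eval_mul] at h4 h5 h6
      obtain ⟨u, v, huv⟩ := hcop2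
      have h7 := congrArg (Polynomial.eval τ) huv
      simp only [Polynomial.eval_add, Polynomial.eval_mul, Polynomial.eval_one, h6, mul_zero,
        add_zero] at h7
      have h8 : e.eval τ ≠ 0 := by
        intro h9
        rw [h9, mul_zero] at h7
        exact zero_ne_one h7
      obtain ⟨u', v', huv'⟩ := hcop1
      have h9 := congrArg (Polynomial.eval τ) huv'
      simp only [Polynomial.eval_add, Polynomial.eval_mul, Polynomial.eval_one,
        (mul_eq_zero.1 h4).resolve_left h8, (mul_eq_zero.1 h5).resolve_left h8, mul_zero,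
        add_zero] at h9
      exact zero_ne_one h9
    · simp only [hz0]
      exact hyΦ
    · intro x τ hx hτ hsum
      rw [Polynomial.eval_mul] at hτ
      have hτg := left_ne_zero_of_mul hτ
      have hτγ := right_ne_zero_of_mul hτ
      rw [eval_aeval_poly] at hτg
      have h3 := (H x (fun i => (yy i).eval τ) hx hτg).1 (by
        rw [eval_dJ]
        have h4 : x 0 * φ0.eval τ + x 1 * φ1.eval τ + x 2 * φ2.eval τ = 0 := by
          rw [hG1a, hG1b, hG2b, hG2a]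
          simp only [Fin.sum_univ_three, hψ, Matrix.cons_val_zero, Matrix.cons_val_one,
            Matrix.cons_val, Polynomial.eval_mul] at hsum ⊢
          linear_combination (G2.eval τ) * hsum
        rw [← h4, hφ0, hφ1, hφ2]
        simp only [Polynomial.eval_add, Polynomial.eval_mul, Polynomial.eval_pow])
      have h5 : (fun i => eval (fun i => (yy i).eval τ) (σ i)) =
          fun i => γ.eval τ * (z i).eval τ := by
        funext i
        rw [← eval_aeval_poly, hσyy, Polynomial.eval_mul]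
      rw [h5, eval_eq_aeval, hF.aeval_smul_right, ← eval_eq_aeval] at h3
      exact (mul_eq_zero.1 h3).resolve_left (pow_ne_zero _ hτγ)
  -- the relation
  have hc : ∃ c : Polynomial ℂ, a0 ^ k * (yy 0 ^ (2 * k) * yy 2 ^ 2 - yy 1 ^ (2 * k + 2)) =
      G2 * c ∧ (a0 ^ k * p) ^ 2 - (2 * (e * a1 ^ (k + 1))) ^ 2 = c ^ 2 := by
    have h3 : (a0 ^ k * φ2) ^ 2 - (a0 ^ k * (yy 0 ^ (2 * k) * yy 2 ^ 2 - yy 1 ^ (2 * k + 2))) ^ 2 =
        (2 * (G1 * a1 ^ (k + 1))) ^ 2 := by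
      have h4 : (a0 * yy 1) ^ (2 * k) = (a1 * yy 0) ^ (2 * k) := by rw [hratio]
      have h5 : (G1 * a1) ^ 2 = φ1 ^ 2 := by rw [← hG1b]
      have e1 : (2 * (G1 * a1 ^ (k + 1))) ^ 2 = 4 * (a1 ^ (2 * k) * (G1 * a1) ^ 2) := by ring
      rw [e1, h5, hφ1, hφ2]
      have e2 : (4 : Polynomial ℂ) * (a1 ^ (2 * k) * (yy 0 ^ (2 * k) * yy 1 * yy 2) ^ 2) =
        4 * ((a1 * yy 0) ^ (2 * k) * (yy 0 ^ (2 * k) * yy 1 ^ 2 * yy 2 ^ 2)) := by ring
      rw [e2, ← h4]
      ring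
    have h4 : G2 ^ 2 ∣ (a0 ^ k * (yy 0 ^ (2 * k) * yy 2 ^ 2 - yy 1 ^ (2 * k + 2))) ^ 2 := by
      refine ⟨(a0 ^ k * p) ^ 2 - (2 * (e * a1 ^ (k + 1))) ^ 2, ?_⟩
      rw [hG2b, hG2a] at h3
      linear_combination -h3
    obtain ⟨c, hc⟩ := (IsIntegrallyClosed.pow_dvd_pow_iff two_ne_zero).1 h4
    refine ⟨c, hc, ?_⟩
    have h5 : G2 ^ 2 * ((a0 ^ k * p) ^ 2 - (2 * (e * a1 ^ (k + 1))) ^ 2) = G2 ^ 2 * c ^ 2 := by
      rw [hc, hG2b, hG2a] at h3
      linear_combination h3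
    exact mul_left_cancel₀ (pow_ne_zero 2 hG20) h5
  obtain ⟨c, hc1, hc2⟩ := hc
  have hc0 : c ≠ 0 := by
    rintro rfl
    rw [mul_zero] at hc1
    exact mul_ne_zero (pow_ne_zero _ ha0) hw0 hc1
  have hd0 := hdeg 0
  have hd1 := hdeg 1
  have hd2 := hdeg 2
  simp only [hψ, Matrix.cons_val_zero, Matrix.cons_val_one, Matrix.cons_val] at hd0 hd1 hd2
  rw [Polynomial.natDegree_mul he ha0] at hd0
  rw [Polynomial.natDegree_mul he ha1] at hd1
  have hnc : a0.natDegree ≠ 0 ∨ a1.natDegree ≠ 0 := by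
    by_contra hcon
    push Not at hcon
    obtain ⟨h3, h4⟩ := hcon
    obtain ⟨c0, hc0'⟩ := Polynomial.natDegree_eq_zero.1 h3
    obtain ⟨c1, hc1'⟩ := Polynomial.natDegree_eq_zero.1 h4
    rw [← hc0', ← hc1'] at hratio
    have h5 := congrArg (Polynomial.eval 0) hratio
    have h6 := congrArg (Polynomial.eval 1) hratio
    simp only [Polynomial.eval_mul, Polynomial.eval_C, hyy0, hyy1] at h5 h6
    have h7 : c0 * y₀ 1 = c1 * y₀ 0 := mul_left_cancel₀ hyG (by linear_combination h5)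
    have h8 : c0 * y₁ 1 = c1 * y₁ 0 := mul_left_cancel₀ hyG1 (by linear_combination h6)
    have hc00 : c0 ≠ 0 := by
      rintro rfl
      rw [Polynomial.C_0] at hc0'
      exact ha0 hc0'.symm
    apply hyN1
    apply mul_left_cancel₀ hc00
    rw [mul_zero]
    linear_combination (y₀ 0) * h8 - (y₁ 0) * h7
  have := mason_bound a0 a1 e p c k b hcop1 ha0 ha1 he hp hc0 hc2 (by omega) (by omega) hd2 hnc
  omega

end Pool.Agent.X329.Grid
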