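import Mathlib
import Pool.Agent.X329.Grid.Core2

set_option autoImplicit false

namespace Pool.Agent.X329.Grid

open MvPolynomial

theorem rep_mk {s : ℕ} (x : Fin (s + 1) → ℂ) (hx : x ≠ 0) :
    ∃ c : ℂ, c ≠ 0 ∧ (Projectivization.mk ℂ x hx).rep = fun i => c * x i := by
  obtain ⟨a, ha⟩ := Projectivization.exists_smul_eq_mk_rep ℂ x hx
  refine ⟨a, a.ne_zero, ?_⟩
  rw [← ha]
  funext i
  rfl

/-- A nonempty Zariski open set contains the points where a nonzero homogeneous polynomial does not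
vanish. -/
theorem exists_hom {s : ℕ} {U : Set (PP s)} (hU : IsZariskiOpen U) (hne : U.Nonempty) :
    ∃ (n : ℕ) (f : MvPolynomial (Fin (s + 1)) ℂ), f ≠ 0 ∧ f.IsHomogeneous n ∧
      ∀ x : Fin (s + 1) → ℂ, eval x f ≠ 0 → ∃ hx : x ≠ 0, Projectivization.mk ℂ x hx ∈ U := by
  obtain ⟨I, hI, rfl⟩ := hU
  obtain ⟨q, f, hf, hfq⟩ := hne
  obtain ⟨n, hn⟩ := hI f hf
  refine ⟨n + 1, f * X 0, mul_ne_zero ?_ (X_ne_zero 0), hn.mul (isHomogeneous_X _ _), ?_⟩
  · rintro rfl
    exact hfq (map_zero _)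
  · intro x hx
    rw [map_mul, eval_X] at hx
    have hx0 : x ≠ 0 := by
      rintro rfl
      exact hx (by simp)
    refine ⟨hx0, f, hf, ?_⟩
    obtain ⟨c, hc, hrep⟩ := rep_mk x hx0
    rw [hrep, eval_eq_aeval, hom_aeval_smul hn, ← eval_eq_aeval]
    exact mul_ne_zero (pow_ne_zero _ hc) (left_ne_zero_of_mul hx)

theorem mem_zeroLocus {s : ℕ} {F : Poly s} {a b : ℕ} (hF : IsBihom F a b)
    (x y : Fin (s + 1) → ℂ) (hx : x ≠ 0) (hy : y ≠ 0) :
    (Projectivization.mk ℂ x hx, Projectivization.mk ℂ y hy) ∈ zeroLocus F ↔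
      eval (Sum.elim x y) F = 0 := by
  obtain ⟨c, hc, hrep⟩ := rep_mk x hx
  obtain ⟨c', hc', hrep'⟩ := rep_mk y hy
  change eval (Sum.elim (Projectivization.mk ℂ x hx).rep (Projectivization.mk ℂ y hy).rep) F = 0 ↔ _
  rw [hrep, hrep', eval_eq_aeval, hF.aeval_smul_left, hF.aeval_smul_right, ← eval_eq_aeval]
  constructor
  · intro h
    exact (mul_eq_zero.1 ((mul_eq_zero.1 h).resolve_left (pow_ne_zero _ hc))).resolve_left
      (pow_ne_zero _ hc')
  · intro h
    rw [h, mul_zero, mul_zero]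

theorem eval_pull {s : ℕ} (σ : Fin (s + 1) → MvPolynomial (Fin (s + 1)) ℂ) (F : Poly s)
    (x y : Fin (s + 1) → ℂ) :
    eval (Sum.elim x y) (pull σ F) = eval (Sum.elim x fun i => eval y (σ i)) F := by
  rw [pull, eval_eq_aeval, aeval_bind₁, eval_eq_aeval]
  congr 2
  funext i
  rcases i with i | i
  · simp
  · simp only [Sum.elim_inr, aeval_rename]
    rw [eval_eq_aeval]
    rfl

theorem mem_zeroLocus_pull {s : ℕ} {F : Poly s} {a b : ℕ} (hF : IsBihom F a b)
    {σ : Fin (s + 1) → MvPolynomial (Fin (s + 1)) ℂ} {m : ℕ} (hσ : ∀ i, (σ i).IsHomogeneous m)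
    (x y : Fin (s + 1) → ℂ) (hx : x ≠ 0) (hy : y ≠ 0) :
    (Projectivization.mk ℂ x hx, Projectivization.mk ℂ y hy) ∈ zeroLocus (pull σ F) ↔
      eval (Sum.elim x fun i => eval y (σ i)) F = 0 := by
  obtain ⟨c, hc, hrep⟩ := rep_mk x hx
  obtain ⟨c', hc', hrep'⟩ := rep_mk y hy
  change eval (Sum.elim (Projectivization.mk ℂ x hx).rep (Projectivization.mk ℂ y hy).rep)
    (pull σ F) = 0 ↔ _
  rw [eval_pull, hrep, hrep']
  have h1 : (fun i => eval (fun i => c' * y i) (σ i)) = fun i => c' ^ m * eval y (σ i) := by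
    funext i
    rw [eval_eq_aeval, hom_aeval_smul (hσ i), ← eval_eq_aeval]
  rw [h1, eval_eq_aeval, hF.aeval_smul_left, hF.aeval_smul_right, ← eval_eq_aeval]
  constructor
  · intro h
    exact (mul_eq_zero.1 ((mul_eq_zero.1 h).resolve_left (pow_ne_zero _ hc))).resolve_left
      (pow_ne_zero _ (pow_ne_zero _ hc'))
  · intro h
    rw [h, mul_zero, mul_zero]

/-- The hypersurface `dJ k` is not almost equal to `F ∘ (id × σ)` if the degree `b` of `F` in
`y` satisfies `5 b < k`. -/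
theorem not_almostEqual {k a b : ℕ} (hkb : 5 * b < k) {F : Poly 2} (hF : IsBihom F a b)
    {σ : Fin 3 → MvPolynomial (Fin 3) ℂ} (hσ : IsCremona σ) :
    ¬ AlmostEqual (zeroLocus (dJ k)) (zeroLocus (pull σ F)) := by
  rintro ⟨U, V, hU, hUne, hV, hVne, hUV⟩
  obtain ⟨⟨ms, hms⟩, -, ρ, -, ⟨G, hG, h1⟩, G', hG', h2⟩ := hσ
  obtain ⟨e1, f, hf0, hf, hf'⟩ := exists_hom hU hUne
  obtain ⟨e2, g, hg0, hg, hg'⟩ := exists_hom hV hVne
  refine core hkb hF hms hG hG' h1 h2 hf0 hg0 hf hg ?_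
  intro x y hx hy
  obtain ⟨hx0, hxU⟩ := hf' x hx
  obtain ⟨hy0, hyV⟩ := hg' y hy
  rw [← mem_zeroLocus (isBihom_dJ k) x y hx0 hy0, ← mem_zeroLocus_pull hF hms x y hx0 hy0]
  have h3 : (Projectivization.mk ℂ x hx0, Projectivization.mk ℂ y hy0) ∈ U ×ˢ V := ⟨hxU, hyV⟩
  constructor
  · intro h
    have : (Projectivization.mk ℂ x hx0, Projectivization.mk ℂ y hy0) ∈
        zeroLocus (dJ k) ∩ U ×ˢ V := ⟨h, h3⟩
    rw [hUV] at this
    exact this.1
  · intro h
    have : (Projectivization.mk ℂ x hx0, Projectivization.mk ℂ y hy0) ∈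
        zeroLocus (pull σ F) ∩ U ×ˢ V := ⟨h, h3⟩
    rw [← hUV] at this
    exact this.1

theorem three_roots {u v r1 r2 r3 : ℂ} (h12 : r1 ≠ r2) (h13 : r1 ≠ r3) (h23 : r2 ≠ r3)
    (h1 : r1 ^ 2 - v * r1 + u = 0) (h2 : r2 ^ 2 - v * r2 + u = 0) (h3 : r3 ^ 2 - v * r3 + u = 0) :
    False := by
  have e1 : r1 + r2 - v = 0 := by
    apply mul_left_cancel₀ (sub_ne_zero.2 h12)
    linear_combination h1 - h2
  have e2 : r1 + r3 - v = 0 := by
    apply mul_left_cancel₀ (sub_ne_zero.2 h13)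
    linear_combination h1 - h3
  exact h23 (by linear_combination e1 - e2)

/-- `dJ k` is almost-`(2, t)`-grid-free for `t ≥ 3`. -/
theorem almostGridFree_dJ (k t : ℕ) (ht : 3 ≤ t) : AlmostGridFree 2 t (zeroLocus (dJ k)) := by
  classical
  refine ⟨Set.univ, {q | q.rep 0 ≠ 0 ∧ q.rep 2 ≠ 0}, ?_, ?_, ?_, ?_, ?_⟩
  · refine ⟨{1}, ?_, ?_⟩
    · rintro f rfl
      exact ⟨0, isHomogeneous_one _ _⟩
    · ext q
      simp
  · exact ⟨Projectivization.mk ℂ (fun _ => 1) (by
      intro h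
      have := congrFun h 0
      simp at this), trivial⟩
  · refine ⟨{X 0 * X 2}, ?_, ?_⟩
    · rintro f rfl
      exact ⟨2, (isHomogeneous_X _ _).mul (isHomogeneous_X _ _)⟩
    · ext q
      simp
  · refine ⟨Projectivization.mk ℂ (fun _ => 1) (by
      intro h
      have := congrFun h 0
      simp at this), ?_⟩
    obtain ⟨c, hc, hrep⟩ := rep_mk (s := 2) (fun _ => 1) (by
      intro h
      have := congrFun h 0
      simp at this)
    change _ ≠ 0 ∧ _ ≠ 0
    rw [hrep]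
    simpa using hc
  · rintro ⟨S, T, hS, hT, hST⟩
    obtain ⟨p, p', hpp', rfl⟩ := Finset.card_eq_two.1 hS
    obtain ⟨q1, hq1, q2, hq2, q3, hq3, h12, h13, h23⟩ := Finset.two_lt_card.1 (by omega : 2 < T.card)
    have hp : p ∈ ({p, p'} : Finset (PP 2)) := by simp
    have hp' : p' ∈ ({p, p'} : Finset (PP 2)) := by simp
    -- the equations
    have heq : ∀ q ∈ T, ∀ x ∈ ({p, p'} : Finset (PP 2)), q.rep 0 ≠ 0 ∧ q.rep 2 ≠ 0 ∧
        x.rep 0 + x.rep 1 * (q.rep 1 / q.rep 0) + x.rep 2 * (q.rep 2 / q.rep 0 +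
          (q.rep 1 / q.rep 0) ^ (2 * k + 2) / (q.rep 2 / q.rep 0)) = 0 := by
      intro q hq x hx
      obtain ⟨h1, -, h2, h3⟩ := hST x hx q hq
      refine ⟨h2, h3, ?_⟩
      change eval (Sum.elim x.rep q.rep) (dJ k) = 0 at h1
      rw [eval_dJ] at h1
      change q.rep 0 ≠ 0 at h2
      change q.rep 2 ≠ 0 at h3
      have h4 : (q.rep 0 ^ (2 * k + 1) * q.rep 2) ≠ 0 := mul_ne_zero (pow_ne_zero _ h2) h3
      apply mul_left_cancel₀ h4
      rw [mul_zero, ← h1]
      have e1 : q.rep 0 ^ (2 * k + 1) * q.rep 2 * (x.rep 1 * (q.rep 1 / q.rep 0)) =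
          x.rep 1 * (q.rep 0 ^ (2 * k) * q.rep 1 * q.rep 2) := by
        rw [pow_succ]
        field_simp
      have e2 : q.rep 0 ^ (2 * k + 1) * q.rep 2 * (q.rep 2 / q.rep 0) =
          q.rep 0 ^ (2 * k) * q.rep 2 ^ 2 := by
        rw [pow_succ]
        field_simp
      have e3 : q.rep 0 ^ (2 * k + 1) * q.rep 2 *
          ((q.rep 1 / q.rep 0) ^ (2 * k + 2) / (q.rep 2 / q.rep 0)) = q.rep 1 ^ (2 * k + 2) := by
        rw [div_pow]
        field_simp
        ring
      linear_combination e1 + x.rep 2 * e2 + x.rep 2 * e3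
    -- uniqueness of `(u, v)`
    have huniq : ∀ u v u' v' : ℂ, p.rep 0 + p.rep 1 * u + p.rep 2 * v = 0 →
        p'.rep 0 + p'.rep 1 * u + p'.rep 2 * v = 0 → p.rep 0 + p.rep 1 * u' + p.rep 2 * v' = 0 →
        p'.rep 0 + p'.rep 1 * u' + p'.rep 2 * v' = 0 → u = u' ∧ v = v' := by
      intro u v u' v' h1 h2 h3 h4
      by_contra hcon
      have hdet : p.rep 1 * p'.rep 2 - p.rep 2 * p'.rep 1 = 0 := by
        by_contra hd
        apply hcon
        constructor
        · apply mul_left_cancel₀ hd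
          linear_combination (p'.rep 2) * (h1 - h3) - (p.rep 2) * (h2 - h4)
        · apply mul_left_cancel₀ hd
          linear_combination (p.rep 1) * (h2 - h4) - (p'.rep 1) * (h1 - h3)
      apply hpp'
      rw [← Projectivization.mk_rep p, ← Projectivization.mk_rep p',
        Projectivization.mk_eq_mk_iff']
      have hp0 := p'.rep_nonzero
      by_cases h5 : p'.rep 1 = 0
      · by_cases h6 : p'.rep 2 = 0
        · exfalso
          apply hp0
          funext i
          fin_cases i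
          · have : p'.rep 0 = 0 := by rw [h5, h6] at h2; linear_combination h2
            exact this
          · exact h5
          · exact h6
        · refine ⟨p.rep 2 / p'.rep 2, ?_⟩
          have h7 : p.rep 1 = 0 := by
            rw [h5] at hdet
            have : p.rep 1 * p'.rep 2 = 0 := by linear_combination hdet
            exact (mul_eq_zero.1 this).resolve_right h6
          funext i
          fin_cases i
          · change p.rep 2 / p'.rep 2 * p'.rep 0 = p.rep 0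
            rw [div_mul_eq_mul_div, div_eq_iff h6]
            rw [h5] at h2
            rw [h7] at h1
            linear_combination (p.rep 2) * h2 - (p'.rep 2) * h1
          · change p.rep 2 / p'.rep 2 * p'.rep 1 = p.rep 1
            rw [h5, h7, mul_zero]
          · change p.rep 2 / p'.rep 2 * p'.rep 2 = p.rep 2
            rw [div_mul_cancel₀ _ h6]
      · refine ⟨p.rep 1 / p'.rep 1, ?_⟩
        funext i
        fin_cases i
        · change p.rep 1 / p'.rep 1 * p'.rep 0 = p.rep 0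
          rw [div_mul_eq_mul_div, div_eq_iff h5]
          linear_combination (p.rep 1) * h2 - (p'.rep 1) * h1 - v * hdet
        · change p.rep 1 / p'.rep 1 * p'.rep 1 = p.rep 1
          rw [div_mul_cancel₀ _ h5]
        · change p.rep 1 / p'.rep 1 * p'.rep 2 = p.rep 2
          rw [div_mul_eq_mul_div, div_eq_iff h5]
          linear_combination hdet
    -- equal coordinates give equal points
    have hext : ∀ q q' : PP 2, q.rep 0 ≠ 0 → q'.rep 0 ≠ 0 → q.rep 1 / q.rep 0 = q'.rep 1 / q'.rep 0 →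
        q.rep 2 / q.rep 0 = q'.rep 2 / q'.rep 0 → q = q' := by
      intro q q' h1 h2 h3 h4
      rw [← Projectivization.mk_rep q, ← Projectivization.mk_rep q',
        Projectivization.mk_eq_mk_iff']
      refine ⟨q.rep 0 / q'.rep 0, ?_⟩
      rw [div_eq_div_iff h1 h2] at h3 h4
      funext i
      fin_cases i
      · change q.rep 0 / q'.rep 0 * q'.rep 0 = q.rep 0
        rw [div_mul_cancel₀ _ h2]
      · change q.rep 0 / q'.rep 0 * q'.rep 1 = q.rep 1
        rw [div_mul_eq_mul_div, div_eq_iff h2]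
        linear_combination -h3
      · change q.rep 0 / q'.rep 0 * q'.rep 2 = q.rep 2
        rw [div_mul_eq_mul_div, div_eq_iff h2]
        linear_combination -h4
    obtain ⟨a1, b1, c1⟩ := heq q1 hq1 p hp
    obtain ⟨-, -, c1'⟩ := heq q1 hq1 p' hp'
    obtain ⟨a2, b2, c2⟩ := heq q2 hq2 p hp
    obtain ⟨-, -, c2'⟩ := heq q2 hq2 p' hp'
    obtain ⟨a3, b3, c3⟩ := heq q3 hq3 p hp
    obtain ⟨-, -, c3'⟩ := heq q3 hq3 p' hp'
    obtain ⟨u12, v12⟩ := huniq _ _ _ _ c1 c1' c2 c2'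
    obtain ⟨u13, v13⟩ := huniq _ _ _ _ c1 c1' c3 c3'
    set u := q1.rep 1 / q1.rep 0 with hu
    set v := q1.rep 2 / q1.rep 0 + u ^ (2 * k + 2) / (q1.rep 2 / q1.rep 0) with hv
    have root : ∀ r : ℂ, r ≠ 0 → v = r + u ^ (2 * k + 2) / r → r ^ 2 - v * r + u ^ (2 * k + 2) = 0 := by
      intro r hr h
      rw [h]
      field_simp
      ring
    refine three_roots (u := u ^ (2 * k + 2)) (v := v) (r1 := q1.rep 2 / q1.rep 0)
      (r2 := q2.rep 2 / q2.rep 0) (r3 := q3.rep 2 / q3.rep 0) ?_ ?_ ?_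
      (root _ (div_ne_zero b1 a1) hv) (root _ (div_ne_zero b2 a2) ?_)
      (root _ (div_ne_zero b3 a3) ?_)
    · intro h
      exact h12 (hext _ _ a1 a2 (by rw [← u12]) h)
    · intro h
      exact h13 (hext _ _ a1 a3 (by rw [← u13]) h)
    · intro h
      exact h23 (hext _ _ a2 a3 (by rw [← u12, ← u13]) h)
    · rw [v12, ← u12]
    · rw [v13, ← u13]

end Pool.Agent.X329.Grid
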